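import Pool.Agent.N793.GP.Exp

/-! # Sets without additive and multiplicative coincidences -/

set_option autoImplicit false

namespace Pool.Agent.N793.GP

open Finset
open Pool.Agent.N793.PG

/-- All sums of `h` elements of `A` (repetitions allowed) are different, up to the order of the
terms: `A` is a `B_h` set. -/
def AddB {p : ℕ} (h : ℕ) (A : Finset (ZMod p)) : Prop :=
  ∀ s t : Multiset (ZMod p), Multiset.card s = h → Multiset.card t = h →
    (∀ x ∈ s, x ∈ A) → (∀ x ∈ t, x ∈ A) → s.sum = t.sum → s = t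

/-- All products of `h` elements of `A` (repetitions allowed) are different, up to the order of the
factors. -/
def MulB {p : ℕ} (h : ℕ) (A : Finset (ZMod p)) : Prop :=
  ∀ s t : Multiset (ZMod p), Multiset.card s = h → Multiset.card t = h →
    (∀ x ∈ s, x ∈ A) → (∀ x ∈ t, x ∈ A) → s.prod = t.prod → s = t

/-- a difference of two linear forms with small coefficients -/
noncomputable def lin (p : ℕ) {N h : ℕ} (q : (Fin N → Fin (h + 1)) × (Fin N → Fin (h + 1))) :
    MvPolynomial (Fin N) (ZMod p) :=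
  ∑ i, MvPolynomial.C (((q.1 i : ℕ) : ZMod p) - ((q.2 i : ℕ) : ZMod p)) * MvPolynomial.X i

/-- a difference of two monomials with small exponents -/
noncomputable def mon (p : ℕ) {N h : ℕ} (q : (Fin N → Fin (h + 1)) × (Fin N → Fin (h + 1))) :
    MvPolynomial (Fin N) (ZMod p) :=
  ∏ i, MvPolynomial.X i ^ (q.1 i : ℕ) - ∏ i, MvPolynomial.X i ^ (q.2 i : ℕ)

/-- the relations -/
noncomputable def rel (N h p : ℕ) : Finset (MvPolynomial (Fin N) (ZMod p)) := by
  classical
  exact ((univ : Finset ((Fin N → Fin (h + 1)) × (Fin N → Fin (h + 1)))).filter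
      fun q => q.1 ≠ q.2).image (lin p) ∪
    ((univ : Finset ((Fin N → Fin (h + 1)) × (Fin N → Fin (h + 1)))).filter
      fun q => q.1 ≠ q.2).image (mon p)

theorem prodX {R : Type} [CommSemiring R] {N : ℕ} (u : Fin N → ℕ) :
    ∏ i, (MvPolynomial.X i : MvPolynomial (Fin N) R) ^ (u i) =
      MvPolynomial.monomial (Finsupp.equivFunOnFinite.symm u) 1 := by
  rw [MvPolynomial.monomial_eq, MvPolynomial.C_1, one_mul, Finsupp.prod_fintype]
  · rfl
  · intro i; simp

theorem lin_ne_zero {p : ℕ} (hp : p.Prime) {N h : ℕ} (hh : h < p)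
    {q : (Fin N → Fin (h + 1)) × (Fin N → Fin (h + 1))} (hq : q.1 ≠ q.2) : lin p q ≠ 0 := by
  classical
  have : Fact p.Prime := ⟨hp⟩
  intro h0
  apply hq
  funext i
  have h1 : MvPolynomial.eval (Pi.single i (1 : ZMod p)) (lin p q) = 0 := by rw [h0, map_zero]
  unfold lin at h1
  rw [map_sum, sum_eq_single i] at h1
  · simp only [map_mul, MvPolynomial.eval_C, MvPolynomial.eval_X, Pi.single_eq_same, mul_one] at h1
    have h2 : ((q.1 i : ℕ) : ZMod p) = ((q.2 i : ℕ) : ZMod p) := sub_eq_zero.1 h1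
    rw [ZMod.natCast_eq_natCast_iff'] at h2
    have h3 := (q.1 i).2
    have h4 := (q.2 i).2
    rw [Nat.mod_eq_of_lt (by omega), Nat.mod_eq_of_lt (by omega)] at h2
    exact Fin.ext h2
  · intro j _ hj
    simp [Pi.single_eq_of_ne hj]
  · intro h; exact absurd (mem_univ i) h

theorem mon_ne_zero {p : ℕ} (hp : p.Prime) {N h : ℕ}
    {q : (Fin N → Fin (h + 1)) × (Fin N → Fin (h + 1))} (hq : q.1 ≠ q.2) : mon p q ≠ 0 := by
  have : Fact p.Prime := ⟨hp⟩
  unfold mon
  rw [prodX (fun i => (q.1 i : ℕ)), prodX (fun i => (q.2 i : ℕ)), sub_ne_zero]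
  intro h0
  apply hq
  have h1 := MvPolynomial.monomial_left_injective (one_ne_zero (α := ZMod p)) h0
  have h2 := Finsupp.equivFunOnFinite.symm.injective h1
  funext i
  exact Fin.ext (congrFun h2 i)

theorem lin_deg {p : ℕ} {N h : ℕ} (hp : p.Prime)
    (q : (Fin N → Fin (h + 1)) × (Fin N → Fin (h + 1))) : (lin p q).totalDegree ≤ 1 := by
  have : Fact p.Prime := ⟨hp⟩
  unfold lin
  refine MvPolynomial.totalDegree_finsetSum_le fun i _ => ?_
  refine (MvPolynomial.totalDegree_mul _ _).trans ?_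
  rw [MvPolynomial.totalDegree_C, MvPolynomial.totalDegree_X, zero_add]

theorem mon_deg {p : ℕ} {N h : ℕ} (hp : p.Prime)
    (q : (Fin N → Fin (h + 1)) × (Fin N → Fin (h + 1))) : (mon p q).totalDegree ≤ N * h := by
  have : Fact p.Prime := ⟨hp⟩
  have key : ∀ u : Fin N → Fin (h + 1),
      (∏ i, (MvPolynomial.X i : MvPolynomial (Fin N) (ZMod p)) ^ (u i : ℕ)).totalDegree ≤ N * h := by
    intro u
    refine (MvPolynomial.totalDegree_finset_prod _ _).trans ?_
    calc ∑ i, ((MvPolynomial.X i : MvPolynomial (Fin N) (ZMod p)) ^ (u i : ℕ)).totalDegree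
        ≤ ∑ _i : Fin N, h := by
          refine sum_le_sum fun i _ => ?_
          rw [MvPolynomial.totalDegree_X_pow]
          exact Nat.lt_succ_iff.1 (u i).2
      _ = N * h := by simp
  unfold mon
  exact (MvPolynomial.totalDegree_sub _ _).trans (max_le (key _) (key _))

theorem rel_few (N h : ℕ) {κ : ℝ} (hκ : 0 < κ) : Few (rel N h) κ := by
  classical
  set K : ℕ := Fintype.card ((Fin N → Fin (h + 1)) × (Fin N → Fin (h + 1))) with hK
  obtain ⟨p₀, hp₀⟩ := large (((2 * K : ℕ) : ℝ) * ((N * h + 1 : ℕ) : ℝ)) κ hκ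
  refine ⟨p₀ + h, fun p hp hlt => ⟨N * h + 1, ?_, ?_⟩⟩
  · intro P hP
    unfold rel at hP
    rcases mem_union.1 hP with h1 | h1
    · obtain ⟨q, hq, rfl⟩ := mem_image.1 h1
      exact ⟨lin_ne_zero hp (by omega) (mem_filter.1 hq).2, (lin_deg hp q).trans (by omega)⟩
    · obtain ⟨q, hq, rfl⟩ := mem_image.1 h1
      exact ⟨mon_ne_zero hp (mem_filter.1 hq).2, (mon_deg hp q).trans (by omega)⟩
  · have h1 : (rel N h p).card ≤ 2 * K := by
      unfold rel
      refine (card_union_le _ _).trans ?_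
      have h2 := (card_image_le (s := (univ : Finset ((Fin N → Fin (h + 1)) ×
        (Fin N → Fin (h + 1)))).filter fun q => q.1 ≠ q.2) (f := lin p)).trans
        ((card_filter_le _ _).trans (card_univ (α := (Fin N → Fin (h + 1)) ×
        (Fin N → Fin (h + 1)))).le)
      have h3 := (card_image_le (s := (univ : Finset ((Fin N → Fin (h + 1)) ×
        (Fin N → Fin (h + 1)))).filter fun q => q.1 ≠ q.2) (f := mon p)).trans
        ((card_filter_le _ _).trans (card_univ (α := (Fin N → Fin (h + 1)) ×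
        (Fin N → Fin (h + 1)))).le)
      omega
    have h4 : ((rel N h p).card : ℝ) ≤ ((2 * K : ℕ) : ℝ) := by exact_mod_cast h1
    exact (mul_le_mul_of_nonneg_right h4 (Nat.cast_nonneg _)).trans (hp₀ p (by omega))

/-- an enumeration of elements -/
theorem exists_enum {α : Type} [DecidableEq α] {N : ℕ} {A U : Finset α} (hA : N ≤ A.card)
    (hUA : U ⊆ A) (hU : U.card ≤ N) :
    ∃ y : Fin N → α, Function.Injective y ∧ (∀ i, y i ∈ A) ∧ U ⊆ univ.image y := by
  obtain ⟨V, h1, h2, h3⟩ := exists_subsuperset_card_eq hUA hU hA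
  refine ⟨fun i => ((V.equivFinOfCardEq h3).symm i : α), ?_, ?_, ?_⟩
  · intro i j hij
    exact (V.equivFinOfCardEq h3).symm.injective (Subtype.ext hij)
  · intro i
    exact h2 ((V.equivFinOfCardEq h3).symm i).2
  · intro x hx
    exact mem_image.2 ⟨V.equivFinOfCardEq h3 ⟨x, h1 hx⟩, mem_univ _, by simp⟩

/-- general position excludes coincidences -/
theorem coincidence {p : ℕ} {N h : ℕ} {A : Finset (ZMod p)} (hN : 2 * h ≤ N) (hA : N ≤ A.card)
    (s t : Multiset (ZMod p)) (hs : Multiset.card s = h) (ht : Multiset.card t = h)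
    (hsA : ∀ x ∈ s, x ∈ A) (htA : ∀ x ∈ t, x ∈ A) (hst : s ≠ t) :
    ∃ (q : (Fin N → Fin (h + 1)) × (Fin N → Fin (h + 1))) (y : Fin N → ZMod p), q.1 ≠ q.2 ∧
      Function.Injective y ∧ (∀ i, y i ∈ A) ∧
      MvPolynomial.eval y (lin p q) = s.sum - t.sum ∧
      MvPolynomial.eval y (mon p q) = s.prod - t.prod := by
  classical
  set U : Finset (ZMod p) := s.toFinset ∪ t.toFinset with hU
  have hUA : U ⊆ A := by
    intro x hx
    rcases mem_union.1 hx with h1 | h1
    · exact hsA x (Multiset.mem_toFinset.1 h1)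
    · exact htA x (Multiset.mem_toFinset.1 h1)
  have hUc : U.card ≤ N := by
    have h2 := Multiset.toFinset_card_le s
    have h3 := Multiset.toFinset_card_le t
    rw [hU]
    refine (card_union_le _ _).trans ?_
    omega
  obtain ⟨y, hy, hyA, hyU⟩ := exists_enum hA hUA hUc
  have hcs : ∀ x, s.count x < h + 1 := fun x => Nat.lt_succ_iff.2 ((Multiset.count_le_card x s).trans hs.le)
  have hct : ∀ x, t.count x < h + 1 := fun x => Nat.lt_succ_iff.2 ((Multiset.count_le_card x t).trans ht.le)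
  have hsU : s.toFinset ⊆ univ.image y := subset_union_left.trans hyU
  have htU : t.toFinset ⊆ univ.image y := subset_union_right.trans hyU
  refine ⟨(fun i => ⟨s.count (y i), hcs _⟩, fun i => ⟨t.count (y i), hct _⟩), y, ?_, hy, hyA, ?_, ?_⟩
  · intro h0
    apply hst
    refine Multiset.ext.2 fun x => ?_
    by_cases hx : x ∈ univ.image y
    · obtain ⟨i, -, rfl⟩ := mem_image.1 hx
      exact congrArg Fin.val (congrFun h0 i)
    · have h1 : x ∉ s := fun h => hx (hsU (Multiset.mem_toFinset.2 h))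
      have h2 : x ∉ t := fun h => hx (htU (Multiset.mem_toFinset.2 h))
      rw [Multiset.count_eq_zero_of_notMem h1, Multiset.count_eq_zero_of_notMem h2]
  · rw [sum_multiset_count_of_subset s _ hsU, sum_multiset_count_of_subset t _ htU,
      sum_image (fun a _ b _ h => hy h), sum_image (fun a _ b _ h => hy h), ← sum_sub_distrib]
    unfold lin
    rw [map_sum]
    refine sum_congr rfl fun i _ => ?_
    simp only [map_mul, MvPolynomial.eval_C, MvPolynomial.eval_X, nsmul_eq_mul]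
    ring
  · rw [prod_multiset_count_of_subset s _ hsU, prod_multiset_count_of_subset t _ htU,
      prod_image (fun a _ b _ h => hy h), prod_image (fun a _ b _ h => hy h)]
    unfold mon
    rw [map_sub, map_prod, map_prod]
    congr 1 <;> refine prod_congr rfl fun i _ => ?_ <;> simp

theorem GenPos.addB {p N h : ℕ} {A : Finset (ZMod p)} (H : GenPos (rel N h p) A) (hN : 2 * h ≤ N)
    (hA : N ≤ A.card) : AddB h A := by
  classical
  intro s t hs ht hsA htA hst
  by_contra hne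
  obtain ⟨q, y, h1, h2, h3, h4, -⟩ := coincidence hN hA s t hs ht hsA htA hne
  refine H (lin p q) ?_ y h2 h3 (by rw [h4, hst, sub_self])
  unfold rel
  exact mem_union_left _ (mem_image.2 ⟨q, mem_filter.2 ⟨mem_univ _, h1⟩, rfl⟩)

theorem GenPos.mulB {p N h : ℕ} {A : Finset (ZMod p)} (H : GenPos (rel N h p) A) (hN : 2 * h ≤ N)
    (hA : N ≤ A.card) : MulB h A := by
  classical
  intro s t hs ht hsA htA hst
  by_contra hne
  obtain ⟨q, y, h1, h2, h3, -, h4⟩ := coincidence hN hA s t hs ht hsA htA hne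
  refine H (mon p q) ?_ y h2 h3 (by rw [h4, hst, sub_self])
  unfold rel
  exact mem_union_right _ (mem_image.2 ⟨q, mem_filter.2 ⟨mem_univ _, h1⟩, rfl⟩)

/-- The bound `p ^ (-δ) |A|²` for the sum of `χ (a + b)` over `a, b ∈ A`, for the sets `A` with more
than `p ^ α` elements all of whose sums of `h` elements, and all of whose products of `h` elements,
are different up to the order. -/
def SavesB (h : ℕ) (F : ∀ p : ℕ, MulChar (ZMod p) ℂ → Prop) (α δ : ℝ) : Prop :=
  ∃ p₀ : ℕ, ∀ p : ℕ, p.Prime → p₀ < p → ∀ A : Finset (ZMod p),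
    (p : ℝ) ^ α < (A.card : ℝ) → AddB h A → MulB h A →
      ∀ χ : MulChar (ZMod p) ℂ, χ ≠ 1 → F p χ →
        ‖∑ a ∈ A, ∑ b ∈ A, χ (a + b)‖ ≤ (p : ℝ) ^ (-δ) * (A.card : ℝ) ^ 2

variable {F : ∀ p : ℕ, MulChar (ZMod p) ℂ → Prop}

theorem SavesB.gp {N h : ℕ} {α δ : ℝ} (hN : 2 * h ≤ N) (hα : 0 < α) (H : SavesB h F α δ) :
    SavesGP F (rel N h) α δ := by
  obtain ⟨p₀, H⟩ := H
  obtain ⟨p₁, hp₁⟩ := large (N : ℝ) α hα
  refine ⟨p₀ + p₁, fun p hp hlt A hA hgp χ hχ hF => ?_⟩
  have hNA : N ≤ A.card := by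
    have h1 := (hp₁ p (by omega)).trans hA.le
    exact_mod_cast h1
  exact H p hp (by omega) A hA (hgp.addB hN hNA) (hgp.mulB hN hNA) χ hχ hF

/-- sets with few coincidences decide larger exponents -/
theorem SavesB.saves {k : ℕ} {ε₁ δ₁ ε δ : ℝ} (H : SavesB (k + 1) F ε₁ δ₁) (h0 : 0 < ε₁)
    (hε : (2 * k + 1) * ε₁ < ε) (hδ : δ < min (min δ₁ ε₁) ((ε - (2 * k + 1) * ε₁) / 2)) :
    Saves F ε ε δ := by
  have h1 := H.gp (N := 2 * k + 1 + 1) (by omega) h0
  obtain ⟨δ', hd1, hd2⟩ := exists_between hδ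
  have g1 := min_le_left (min δ₁ ε₁) ((ε - (2 * k + 1) * ε₁) / 2)
  have g2 := min_le_right (min δ₁ ε₁) ((ε - (2 * k + 1) * ε₁) / 2)
  set η : ℝ := min (δ' - δ) ((ε - (2 * k + 1) * ε₁) / 2) with hη
  have hη1 : η ≤ δ' - δ := min_le_left _ _
  have hη2 : η ≤ (ε - (2 * k + 1) * ε₁) / 2 := min_le_right _ _
  have hη0 : 0 < η := lt_min (by linarith) (by linarith)
  have hk : (0 : ℝ) ≤ k := Nat.cast_nonneg _
  have hle : ε₁ ≤ (2 * k + 1) * ε₁ := by nlinarith
  have hmax : max (((2 * k + 1 : ℕ) : ℝ) * ε₁ + η) ε₁ = (2 * k + 1) * ε₁ + η := by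
    push_cast
    exact max_eq_left (by linarith)
  refine h1.saves (n := 2 * k + 1) (rel_few _ _ hη0) h0 ?_ ?_
  · rw [hmax]; linarith
  · rw [hmax]
    refine lt_min (by linarith) ?_
    linarith

theorem exists_savesB (k : ℕ) :
    (∀ ε : ℝ, 0 < ε → ∃ δ : ℝ, 0 < δ ∧ Saves F ε ε δ) ↔
      ∀ ε : ℝ, 0 < ε → ∃ δ : ℝ, 0 < δ ∧ SavesB (k + 1) F ε δ := by
  constructor
  · intro h ε hε
    obtain ⟨δ, hδ, p₀, H⟩ := h ε hε
    refine ⟨δ, hδ, p₀, fun p hp hlt A hA _ _ χ hχ hF =>
      (H p hp hlt A A hA hA χ hχ hF).trans (le_of_eq ?_)⟩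
    ring
  · intro h ε hε
    have hk : (0 : ℝ) ≤ k := Nat.cast_nonneg _
    have hx : 0 < ε / (2 * k + 2) := by positivity
    obtain ⟨δ₁, hδ₁, H⟩ := h (ε / (2 * k + 2)) hx
    have e1 : ε / (2 * k + 2) * (2 * k + 2) = ε := by field_simp
    have h5 : (2 * k + 1) * (ε / (2 * k + 2)) < ε := by nlinarith
    have h6 : 0 < min (min δ₁ (ε / (2 * k + 2))) ((ε - (2 * k + 1) * (ε / (2 * k + 2))) / 2) :=
      lt_min (lt_min hδ₁ hx) (by linarith)
    obtain ⟨δ, hd1, hd2⟩ := exists_between h6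
    exact ⟨δ, hd1, H.saves hx h5 hd2⟩

end Pool.Agent.N793.GP
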