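import Pool.Agent.N793.GP.Sample
import Pool.Agent.N793.PG.Asym

/-! # One set in general position controls all pairs of sets -/

set_option autoImplicit false

namespace Pool.Agent.N793.GP

open Finset
open Pool.Agent.N793.PG

section
variable {p : ℕ} [Fact p.Prime] (χ : MulChar (ZMod p) ℂ)

/-- **Polarisation** with overlaps, for the kernel `χ (a + b)`. -/
theorem polar (A C : Finset (ZMod p)) [DecidableEq (ZMod p)] :
    2 * dsum χ A C = 2 * dsum χ (A ∪ C) (A ∪ C) + 2 * dsum χ (A ∩ C) (A ∩ C) -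
      dsum χ ((A ∪ C) \ (A ∩ C)) ((A ∪ C) \ (A ∩ C)) - dsum χ A A - dsum χ C C := by
  have hsymm : W χ (ind C) (ind A) = W χ (ind A) (ind C) := by
    rw [W_ind, W_ind, dsum_comm]
  have hi : ∀ x, ind (A ∪ C) x = ind A x + ind C x - ind (A ∩ C) x := by
    intro x
    unfold ind
    by_cases h1 : x ∈ A <;> by_cases h2 : x ∈ C <;> simp [h1, h2]
  have hd : ∀ x, ind ((A ∪ C) \ (A ∩ C)) x = ind A x + ind C x - 2 * ind (A ∩ C) x := by
    intro x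
    unfold ind
    by_cases h1 : x ∈ A <;> by_cases h2 : x ∈ C <;> simp [h1, h2] <;> norm_num
  rw [← W_ind, ← W_ind, ← W_ind, ← W_ind, ← W_ind, ← W_ind]
  have e : ∀ f g : ZMod p → ℝ, W χ f g =
      ∑ z : ZMod p × ZMod p, (f z.1 : ℂ) * (g z.2 : ℂ) * χ (z.1 + z.2) := by
    intro f g
    unfold W
    rw [← univ_product_univ, sum_product]
  have key : 2 * W χ (ind (A ∪ C)) (ind (A ∪ C)) + 2 * W χ (ind (A ∩ C)) (ind (A ∩ C)) -
      W χ (ind ((A ∪ C) \ (A ∩ C))) (ind ((A ∪ C) \ (A ∩ C))) - W χ (ind A) (ind A) -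
      W χ (ind C) (ind C) = W χ (ind A) (ind C) + W χ (ind C) (ind A) := by
    rw [e, e, e, e, e, e, e, mul_sum, mul_sum, ← sum_add_distrib, ← sum_sub_distrib,
      ← sum_sub_distrib, ← sum_sub_distrib, ← sum_add_distrib]
    refine sum_congr rfl fun z _ => ?_
    rw [hi, hi, hd, hd]
    push_cast
    ring
  rw [key, hsymm]
  ring

theorem dsum_trivial (A B : Finset (ZMod p)) : ‖dsum χ A B‖ ≤ (A.card : ℝ) * B.card := by
  unfold dsum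
  calc _ ≤ ∑ a ∈ A, ‖∑ b ∈ B, χ (a + b)‖ := norm_sum_le _ _
    _ ≤ ∑ a ∈ A, ∑ b ∈ B, (1 : ℝ) := by
        refine sum_le_sum fun a _ => (norm_sum_le _ _).trans ?_
        exact sum_le_sum fun b _ => norm_le_one χ _
    _ = _ := by simp

/-- two sets from one set -/
theorem two_from_one (M : ℕ) (K : ℝ) (H : ∀ X : Finset (ZMod p), X.card ≤ 2 * M → ‖dsum χ X X‖ ≤ K)
    (A B : Finset (ZMod p)) (hA : A.card ≤ M) (hB : B.card ≤ M) : ‖dsum χ A B‖ ≤ 4 * K := by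
  classical
  have hpol := polar χ A B
  have hU : (A ∪ B).card ≤ 2 * M := (card_union_le _ _).trans (by omega)
  have h1 := H _ hU
  have h2 := H (A ∩ B) ((card_le_card inter_subset_left).trans (by omega))
  have h3 := H ((A ∪ B) \ (A ∩ B)) ((card_le_card sdiff_subset).trans hU)
  have h4 := H A (by omega)
  have h5 := H B (by omega)
  have h6 : ‖2 * dsum χ A B‖ ≤ 2 * ‖dsum χ (A ∪ B) (A ∪ B)‖ + 2 * ‖dsum χ (A ∩ B) (A ∩ B)‖ +
      ‖dsum χ ((A ∪ B) \ (A ∩ B)) ((A ∪ B) \ (A ∩ B))‖ + ‖dsum χ A A‖ + ‖dsum χ B B‖ := by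
    rw [hpol]
    refine (norm_sub_le _ _).trans (add_le_add ?_ le_rfl)
    refine (norm_sub_le _ _).trans (add_le_add ?_ le_rfl)
    refine (norm_sub_le _ _).trans (add_le_add ?_ le_rfl)
    refine (norm_add_le _ _).trans (add_le_add ?_ ?_)
    · rw [norm_mul]; simp
    · rw [norm_mul]; simp
  rw [norm_mul] at h6
  have h7 : ‖(2 : ℂ)‖ = 2 := by simp
  rw [h7] at h6
  have hK : 0 ≤ K := (norm_nonneg _).trans h4
  linarith

end

/-- The polynomials `Ps p` are nonzero, and their number times their degree is at most `p ^ κ`. -/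
def Few {n : ℕ} (Ps : ∀ p : ℕ, Finset (MvPolynomial (Fin n) (ZMod p))) (κ : ℝ) : Prop :=
  ∃ p₀ : ℕ, ∀ p : ℕ, p.Prime → p₀ < p → ∃ D : ℕ,
    (∀ P ∈ Ps p, P ≠ 0 ∧ P.totalDegree ≤ D) ∧ ((Ps p).card : ℝ) * D ≤ (p : ℝ) ^ κ

/-- The bound `p ^ (-δ) |A|²` for the sum of `χ (a + b)` over `a, b ∈ A`, for the sets `A` with more
than `p ^ α` elements which are in general position. -/
def SavesGP {n : ℕ} (F : ∀ p : ℕ, MulChar (ZMod p) ℂ → Prop)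
    (Ps : ∀ p : ℕ, Finset (MvPolynomial (Fin n) (ZMod p))) (α δ : ℝ) : Prop :=
  ∃ p₀ : ℕ, ∀ p : ℕ, p.Prime → p₀ < p → ∀ A : Finset (ZMod p),
    (p : ℝ) ^ α < (A.card : ℝ) → GenPos (Ps p) A →
      ∀ χ : MulChar (ZMod p) ℂ, χ ≠ 1 → F p χ →
        ‖∑ a ∈ A, ∑ b ∈ A, χ (a + b)‖ ≤ (p : ℝ) ^ (-δ) * (A.card : ℝ) ^ 2

variable {F : ∀ p : ℕ, MulChar (ZMod p) ℂ → Prop} {n : ℕ}

theorem savesGP_of_saves {Ps : ∀ p : ℕ, Finset (MvPolynomial (Fin n) (ZMod p))} {α δ : ℝ}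
    (h : Saves F α α δ) : SavesGP F Ps α δ := by
  obtain ⟨p₀, h⟩ := h
  refine ⟨p₀, fun p hp hlt A hA _ χ hχ hF => (h p hp hlt A A hA hA χ hχ hF).trans (le_of_eq ?_)⟩
  ring

/-- the finite step: the density of a one-set sum -/
theorem density {p : ℕ} (hp : p.Prime) (χ : MulChar (ZMod p) ℂ)
    (Ps : Finset (MvPolynomial (Fin (n + 1)) (ZMod p))) (D : ℕ)
    (hPs : ∀ P ∈ Ps, P ≠ 0 ∧ P.totalDegree ≤ D) (m : ℕ) (hm : 2 ≤ m) (τ : ℝ) (hτ : 0 ≤ τ)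
    (H : ∀ A' : Finset (ZMod p), 3 * m ≤ 4 * A'.card → GenPos Ps A' →
      ‖∑ a ∈ A', ∑ b ∈ A', χ (a + b)‖ ≤ τ * (A'.card : ℝ) ^ 2)
    (A : Finset (ZMod p)) (hA : A.Nonempty) :
    ‖∑ a ∈ A, ∑ b ∈ A, χ (a + b)‖ ≤
      (2 * τ + 2 / m + 8 * ((Ps.card : ℝ) * D * (m : ℝ) ^ n + m) / A.card) * (A.card : ℝ) ^ 2 := by
  classical
  have : Fact p.Prime := ⟨hp⟩
  have hc : (0 : ℝ) < A.card := by exact_mod_cast card_pos.2 hA
  have hm2 : (2 : ℝ) ≤ m := by exact_mod_cast hm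
  have hm0 : (0 : ℝ) < m := by linarith
  rw [← div_le_iff₀ (by positivity)]
  set κ := ‖∑ a ∈ A, ∑ b ∈ A, χ (a + b)‖ / (A.card : ℝ) ^ 2 with hκ
  have hκ0 : 0 ≤ κ := by positivity
  set Q : ℝ := (Ps.card : ℝ) * D * (m : ℝ) ^ n + m with hQ
  have hQ0 : 0 ≤ Q := by positivity
  have hE : 4 * (m : ℝ) * ((Ps.card : ℝ) * D * (m : ℝ) ^ (n + 1) + (m : ℝ) ^ 2) / A.card =
      m ^ 2 / 2 * (8 * Q / A.card) := by
    rw [hQ]; field_simp; ring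
  have hG : (m : ℝ) ^ 2 / 2 * κ ≤ (m : ℝ) * (m - 1) * κ := by
    refine mul_le_mul_of_nonneg_right ?_ hκ0
    nlinarith
  have hpos : (0 : ℝ) < (m : ℝ) ^ 2 / 2 := by positivity
  have hE0 : 0 ≤ 8 * Q / A.card := by positivity
  have hmm : 0 ≤ 2 / (m : ℝ) := by positivity
  by_cases hbig : 4 * (m : ℝ) * ((Ps.card : ℝ) * D * (m : ℝ) ^ (n + 1) + (m : ℝ) ^ 2) / A.card <
      (m : ℝ) * (m - 1) * κ
  · obtain ⟨A', -, h2, h3, h4, h5⟩ := sample (fun a b => χ (a + b)) (fun x y => norm_le_one χ _) A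
      n m D Ps hPs hA hbig
    have h6 := H A' h2 h4
    have h7 : τ * (A'.card : ℝ) ^ 2 ≤ τ * (m : ℝ) ^ 2 := by
      refine mul_le_mul_of_nonneg_left ?_ hτ
      have : (A'.card : ℝ) ≤ m := by exact_mod_cast h3
      exact pow_le_pow_left₀ (Nat.cast_nonneg _) this 2
    have h8 : (m : ℝ) ^ 2 / 2 * κ ≤ (m : ℝ) ^ 2 / 2 * (2 * τ + 2 / m + 8 * Q / A.card) := by
      have h9 : (m : ℝ) ^ 2 / 2 * (2 * τ + 2 / m + 8 * Q / A.card) =
          τ * (m : ℝ) ^ 2 + m + m ^ 2 / 2 * (8 * Q / A.card) := by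
        field_simp
      rw [h9, ← hE]
      linarith
    exact le_of_mul_le_mul_left h8 hpos
  · push Not at hbig
    rw [hE] at hbig
    have h8 : (m : ℝ) ^ 2 / 2 * κ ≤ (m : ℝ) ^ 2 / 2 * (8 * Q / A.card) := by linarith
    have h9 := le_of_mul_le_mul_left h8 hpos
    linarith

/-- the trivial family of polynomials: no condition on the set -/
def noPoly (p : ℕ) : Finset (MvPolynomial (Fin 1) (ZMod p)) := ∅

/-- **One set in general position controls one arbitrary set.** -/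
theorem SavesGP.all {Ps : ∀ p : ℕ, Finset (MvPolynomial (Fin (n + 1)) (ZMod p))}
    {κ ε₁ δ₁ ε₂ δ₂ : ℝ} (H : SavesGP F Ps ε₁ δ₁) (hPs : Few Ps κ) (h0 : 0 < ε₁)
    (hε : n * ε₁ + κ < ε₂) (hε' : ε₁ < ε₂) (hδ1 : δ₂ < δ₁) (hδ2 : δ₂ < ε₁)
    (hδ3 : δ₂ < ε₂ - (n * ε₁ + κ)) (hδ4 : δ₂ < ε₂ - ε₁) : SavesGP F noPoly ε₂ δ₂ := by
  obtain ⟨p₀, H⟩ := H
  obtain ⟨p₁, hPs⟩ := hPs
  obtain ⟨p₂, hp₂⟩ := large 8 (δ₁ - δ₂) (by linarith)
  obtain ⟨p₃, hp₃⟩ := large 8 (ε₁ - δ₂) (by linarith)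
  obtain ⟨p₄, hp₄⟩ := large (32 * 4 ^ n) (ε₂ - (n * ε₁ + κ) - δ₂) (by linarith)
  obtain ⟨p₅, hp₅⟩ := large 128 (ε₂ - ε₁ - δ₂) (by linarith)
  refine ⟨p₀ + p₁ + p₂ + p₃ + p₄ + p₅, fun p hp hlt A hA _ χ hχ hF => ?_⟩
  obtain ⟨D, hD1, hD2⟩ := hPs p hp (by omega)
  have e2 := hp₂ p (by omega)
  have e3 := hp₃ p (by omega)
  have e4 := hp₄ p (by omega)
  have e5 := hp₅ p (by omega)
  have hp1 : (1 : ℝ) ≤ p := by exact_mod_cast hp.one_le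
  have hp0 : (0 : ℝ) < p := by linarith
  set x : ℝ := (p : ℝ) ^ ε₁ with hx
  have hx1 : 1 ≤ x := Real.one_le_rpow hp1 h0.le
  set m : ℕ := ⌈2 * x⌉₊ with hm
  have hm1 : 2 * x ≤ (m : ℝ) := Nat.le_ceil _
  have hm2 : (m : ℝ) ≤ 4 * x := by
    have := ceil_le_two_mul (show 1 ≤ 2 * x by linarith)
    linarith
  have hmge : 2 ≤ m := by
    have : (2 : ℝ) ≤ m := by linarith
    exact_mod_cast this
  have hAne : A.Nonempty := by
    rw [← card_pos]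
    have : (0 : ℝ) < A.card := (Real.rpow_pos_of_pos hp0 _).trans hA
    exact_mod_cast this
  have hc : (0 : ℝ) < A.card := by exact_mod_cast card_pos.2 hAne
  have h1 := density hp χ (Ps p) D hD1 m hmge ((p : ℝ) ^ (-δ₁)) (Real.rpow_pos_of_pos hp0 _).le
    (fun A' hA' hgp => H p hp (by omega) A' (by
      have h2 : 3 * (m : ℝ) ≤ 4 * (A'.card : ℝ) := by exact_mod_cast hA'
      have h3 : 6 * x ≤ 4 * (A'.card : ℝ) := by linarith
      rw [← hx]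
      linarith) hgp χ hχ hF) A hAne
  refine h1.trans (mul_le_mul_of_nonneg_right ?_ (by positivity))
  -- four terms
  set y : ℝ := (p : ℝ) ^ (-δ₂) with hy
  have t1 : 8 * (p : ℝ) ^ (-δ₁) ≤ y := by
    calc 8 * (p : ℝ) ^ (-δ₁) ≤ (p : ℝ) ^ (δ₁ - δ₂) * (p : ℝ) ^ (-δ₁) :=
          mul_le_mul_of_nonneg_right e2 (Real.rpow_pos_of_pos hp0 _).le
      _ = y := by rw [hy, ← Real.rpow_add hp0]; congr 1; ring
  have t2 : 8 * (1 / (m : ℝ)) ≤ y := by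
    have h2 : 1 / (m : ℝ) ≤ 1 / x := by
      apply one_div_le_one_div_of_le (by linarith)
      linarith
    have h3 : 1 / x = (p : ℝ) ^ (-ε₁) := by rw [hx, Real.rpow_neg hp0.le, one_div]
    calc 8 * (1 / (m : ℝ)) ≤ (p : ℝ) ^ (ε₁ - δ₂) * (p : ℝ) ^ (-ε₁) := by
          refine mul_le_mul e3 (by rw [← h3]; exact h2) (by positivity) (by positivity)
      _ = y := by rw [hy, ← Real.rpow_add hp0]; congr 1; ring
  have hAinv : 1 / (A.card : ℝ) ≤ (p : ℝ) ^ (-ε₂) := by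
    rw [Real.rpow_neg hp0.le, ← one_div]
    exact one_div_le_one_div_of_le (Real.rpow_pos_of_pos hp0 _) hA.le
  have t3 : 32 * ((((Ps p).card : ℝ) * D * (m : ℝ) ^ n) * (1 / A.card)) ≤ y := by
    have h2 : (m : ℝ) ^ n ≤ 4 ^ n * (p : ℝ) ^ (n * ε₁) := by
      calc (m : ℝ) ^ n ≤ (4 * x) ^ n := pow_le_pow_left₀ (Nat.cast_nonneg _) hm2 n
        _ = 4 ^ n * (p : ℝ) ^ (n * ε₁) := by
            rw [mul_pow, hx, ← Real.rpow_natCast, ← Real.rpow_natCast ((p : ℝ) ^ ε₁),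
              ← Real.rpow_mul hp0.le]
            congr 2
            ring
    calc 32 * ((((Ps p).card : ℝ) * D * (m : ℝ) ^ n) * (1 / A.card))
        ≤ 32 * (((p : ℝ) ^ κ * (4 ^ n * (p : ℝ) ^ (n * ε₁))) * (p : ℝ) ^ (-ε₂)) := by
          refine mul_le_mul_of_nonneg_left ?_ (by norm_num)
          refine mul_le_mul ?_ hAinv (by positivity) (by positivity)
          exact mul_le_mul hD2 h2 (by positivity) (by positivity)
      _ = (32 * 4 ^ n) * (p : ℝ) ^ (n * ε₁ + κ - ε₂) := by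
          rw [show n * ε₁ + κ - ε₂ = κ + n * ε₁ + (-ε₂) by ring, Real.rpow_add hp0,
            Real.rpow_add hp0]
          ring
      _ ≤ (p : ℝ) ^ (ε₂ - (n * ε₁ + κ) - δ₂) * (p : ℝ) ^ (n * ε₁ + κ - ε₂) :=
          mul_le_mul_of_nonneg_right e4 (Real.rpow_pos_of_pos hp0 _).le
      _ = y := by rw [hy, ← Real.rpow_add hp0]; congr 1; ring
  have t4 : 32 * ((m : ℝ) * (1 / A.card)) ≤ y := by
    calc 32 * ((m : ℝ) * (1 / A.card)) ≤ 32 * ((4 * x) * (p : ℝ) ^ (-ε₂)) := by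
          refine mul_le_mul_of_nonneg_left ?_ (by norm_num)
          exact mul_le_mul hm2 hAinv (by positivity) (by positivity)
      _ = 128 * (p : ℝ) ^ (ε₁ - ε₂) := by
          rw [hx, sub_eq_add_neg, Real.rpow_add hp0]
          ring
      _ ≤ (p : ℝ) ^ (ε₂ - ε₁ - δ₂) * (p : ℝ) ^ (ε₁ - ε₂) :=
          mul_le_mul_of_nonneg_right e5 (Real.rpow_pos_of_pos hp0 _).le
      _ = y := by rw [hy, ← Real.rpow_add hp0]; congr 1; ring
  have t5 : 2 / (m : ℝ) = 2 * (1 / (m : ℝ)) := by ring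
  have t6 : 8 * (((Ps p).card : ℝ) * D * (m : ℝ) ^ n + m) / (A.card : ℝ) =
      8 * ((((Ps p).card : ℝ) * D * (m : ℝ) ^ n) * (1 / A.card)) +
        8 * ((m : ℝ) * (1 / A.card)) := by ring
  rw [t5, t6]
  linarith

/-- **One arbitrary set controls pairs of sets.** -/
theorem SavesGP.pairs {ε₂ δ₂ ε δ : ℝ} (H : SavesGP F noPoly ε₂ δ₂) (h0 : 0 ≤ ε) (hε : ε₂ < ε)
    (hδ1 : δ < δ₂) (hδ2 : δ < 2 * (ε - ε₂)) : Saves F ε ε δ := by
  obtain ⟨p₀, H⟩ := H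
  obtain ⟨p₁, hp₁⟩ := large 32 (δ₂ - δ) (by linarith)
  obtain ⟨p₂, hp₂⟩ := large 8 (2 * (ε - ε₂) - δ) (by linarith)
  refine ⟨p₀ + p₁ + p₂, fun p hp hlt A B hA hB χ hχ hF => ?_⟩
  have e1 := hp₁ p (by omega)
  have e2 := hp₂ p (by omega)
  have : Fact p.Prime := ⟨hp⟩
  have hp1 : (1 : ℝ) ≤ p := by exact_mod_cast hp.one_le
  have hp0 : (0 : ℝ) < p := by linarith
  set M : ℕ := ⌈(p : ℝ) ^ ε⌉₊ with hM
  have hM1 : (p : ℝ) ^ ε ≤ (M : ℝ) := Nat.le_ceil _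
  have hx0 : 0 < (p : ℝ) ^ ε := Real.rpow_pos_of_pos hp0 _
  have hM0 : (0 : ℝ) < M := by linarith
  have hAM : M ≤ A.card := Nat.ceil_le.2 hA.le
  have hBM : M ≤ B.card := Nat.ceil_le.2 hB.le
  obtain ⟨A₁, -, hA1, h1⟩ := sub_one χ A B M hAM
  obtain ⟨B₁, -, hB1, h2⟩ := sub_one χ B A₁ M hBM
  rw [dsum_comm χ B, dsum_comm χ B₁] at h2
  change ‖dsum χ A B‖ ≤ _
  set y : ℝ := (p : ℝ) ^ (-δ) with hy
  have hy0 : 0 < y := Real.rpow_pos_of_pos hp0 _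
  have h3 : ‖dsum χ A₁ B₁‖ ≤ 4 * (y / 4 * (M : ℝ) ^ 2) := by
    refine two_from_one χ M _ (fun X hX => ?_) A₁ B₁ hA1.le hB1.le
    rcases lt_or_ge ((p : ℝ) ^ ε₂) (X.card : ℝ) with h | h
    · have h4 := H p hp (by omega) X h (fun P hP => by simp [noPoly] at hP) χ hχ hF
      change ‖dsum χ X X‖ ≤ _ at h4
      refine h4.trans ?_
      have h5 : (X.card : ℝ) ≤ 2 * M := by exact_mod_cast hX
      have h6 : (X.card : ℝ) ^ 2 ≤ (2 * M) ^ 2 := pow_le_pow_left₀ (Nat.cast_nonneg _) h5 2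
      have h7 : 32 * (p : ℝ) ^ (-δ₂) ≤ y := by
        calc 32 * (p : ℝ) ^ (-δ₂) ≤ (p : ℝ) ^ (δ₂ - δ) * (p : ℝ) ^ (-δ₂) :=
              mul_le_mul_of_nonneg_right e1 (Real.rpow_pos_of_pos hp0 _).le
          _ = y := by rw [hy, ← Real.rpow_add hp0]; congr 1; ring
      calc (p : ℝ) ^ (-δ₂) * (X.card : ℝ) ^ 2 ≤ y / 32 * (2 * M) ^ 2 :=
            mul_le_mul (by linarith) h6 (by positivity) (by positivity)
        _ ≤ y / 4 * (M : ℝ) ^ 2 := by nlinarith [mul_pos hy0 (pow_pos hM0 2)]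
    · refine (dsum_trivial χ X X).trans ?_
      have h7 : 8 * (p : ℝ) ^ (-(2 * (ε - ε₂))) ≤ y := by
        calc 8 * (p : ℝ) ^ (-(2 * (ε - ε₂))) ≤
              (p : ℝ) ^ (2 * (ε - ε₂) - δ) * (p : ℝ) ^ (-(2 * (ε - ε₂))) :=
              mul_le_mul_of_nonneg_right e2 (Real.rpow_pos_of_pos hp0 _).le
          _ = y := by rw [hy, ← Real.rpow_add hp0]; congr 1; ring
      calc (X.card : ℝ) * X.card ≤ (p : ℝ) ^ ε₂ * (p : ℝ) ^ ε₂ :=
            mul_le_mul h h (Nat.cast_nonneg _) (Real.rpow_pos_of_pos hp0 _).le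
        _ = (p : ℝ) ^ (-(2 * (ε - ε₂))) * ((p : ℝ) ^ ε * (p : ℝ) ^ ε) := by
            rw [← Real.rpow_add hp0, ← Real.rpow_add hp0, ← Real.rpow_add hp0]
            congr 1; ring
        _ ≤ (y / 4) * (M * M) := by
            refine mul_le_mul ?_ (mul_le_mul hM1 hM1 hx0.le hM0.le) (by positivity) (by positivity)
            have : 0 < (p : ℝ) ^ (-(2 * (ε - ε₂))) := Real.rpow_pos_of_pos hp0 _
            linarith
        _ = _ := by ring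
  have h4 : ((M : ℝ) * M) * ‖dsum χ A B‖ ≤ ((M : ℝ) * M) * (y * (A.card : ℝ) * (B.card : ℝ)) := by
    have h5 := mul_le_mul_of_nonneg_left h1 hM0.le
    have h6 := mul_le_mul_of_nonneg_left h2 (Nat.cast_nonneg A.card (α := ℝ))
    have h7 : (A.card : ℝ) * (B.card * ‖dsum χ A₁ B₁‖) ≤
        (A.card : ℝ) * (B.card * (4 * (y / 4 * (M : ℝ) ^ 2))) := by
      gcongr
    calc ((M : ℝ) * M) * ‖dsum χ A B‖ = M * (M * ‖dsum χ A B‖) := by ring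
      _ ≤ M * (A.card * ‖dsum χ A₁ B‖) := h5
      _ = A.card * (M * ‖dsum χ A₁ B‖) := by ring
      _ ≤ A.card * (B.card * ‖dsum χ A₁ B₁‖) := h6
      _ ≤ _ := h7
      _ = _ := by ring
  exact le_of_mul_le_mul_left h4 (by positivity)

/-- **One set in general position controls all pairs of sets.** -/
theorem SavesGP.saves {Ps : ∀ p : ℕ, Finset (MvPolynomial (Fin (n + 1)) (ZMod p))}
    {κ ε₁ δ₁ ε δ : ℝ} (H : SavesGP F Ps ε₁ δ₁) (hPs : Few Ps κ) (h0 : 0 < ε₁)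
    (hε : max (n * ε₁ + κ) ε₁ < ε)
    (hδ : δ < min (min δ₁ ε₁) ((ε - max (n * ε₁ + κ) ε₁) / 2)) : Saves F ε ε δ := by
  have h1 := min_le_left (min δ₁ ε₁) ((ε - max (n * ε₁ + κ) ε₁) / 2)
  have h2 := min_le_right (min δ₁ ε₁) ((ε - max (n * ε₁ + κ) ε₁) / 2)
  have h3 := min_le_left δ₁ ε₁
  have h4 := min_le_right δ₁ ε₁
  have h5 := le_max_left (n * ε₁ + κ) ε₁
  have h6 := le_max_right (n * ε₁ + κ) ε₁
  obtain ⟨δ₂, hd1, hd2⟩ := exists_between hδ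
  set t := (ε - max (n * ε₁ + κ) ε₁) / 2 with ht
  refine SavesGP.pairs (ε₂ := ε - t) (δ₂ := δ₂) (H.all hPs h0 ?_ ?_ ?_ ?_ ?_ ?_) ?_ ?_ ?_ ?_ <;>
    linarith

theorem exists_saves {Ps : ∀ p : ℕ, Finset (MvPolynomial (Fin (n + 1)) (ZMod p))}
    (hPs : ∀ κ : ℝ, 0 < κ → Few Ps κ) :
    (∀ ε : ℝ, 0 < ε → ∃ δ : ℝ, 0 < δ ∧ Saves F ε ε δ) ↔
      ∀ ε : ℝ, 0 < ε → ∃ δ : ℝ, 0 < δ ∧ SavesGP F Ps ε δ := by
  constructor
  · intro h ε hε
    obtain ⟨δ, hδ, H⟩ := h ε hε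
    exact ⟨δ, hδ, savesGP_of_saves H⟩
  · intro h ε hε
    have hn : (0 : ℝ) ≤ n := Nat.cast_nonneg _
    have hn1 : (0 : ℝ) < n + 2 := by linarith
    obtain ⟨δ₁, hδ₁, H⟩ := h (ε / (n + 2)) (by positivity)
    have e1 : ε / (n + 2) * (n + 2) = ε := by field_simp
    have hx : 0 < ε / (n + 2) := by positivity
    have h5 : max (n * (ε / (n + 2)) + ε / (n + 2)) (ε / (n + 2)) < ε := by
      rw [max_lt_iff]
      constructor <;> nlinarith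
    have h6 : 0 < min (min δ₁ (ε / (n + 2)))
        ((ε - max (n * (ε / (n + 2)) + ε / (n + 2)) (ε / (n + 2))) / 2) := by
      refine lt_min (lt_min hδ₁ hx) ?_
      linarith
    obtain ⟨δ, hd1, hd2⟩ := exists_between h6
    exact ⟨δ, hd1, H.saves (hPs _ hx) hx h5 hd2⟩

end Pool.Agent.N793.GP
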