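import Mathlib

/-! # Random samples in general position -/

set_option autoImplicit false

namespace Pool.Agent.N793.GP

open Finset

/-- averages of a function of some coordinates, with the complementary functions -/
theorem avg_aux {α E : Type*} [Fintype α] [DecidableEq α] [AddCommMonoid E] {n m : ℕ}
    (e : Fin n → Fin m) (he : Function.Injective e) (H : (Fin n → α) → E)
    [Fintype ({ i : Fin m // i ∉ Set.range e } → α)] :
    ∑ x : Fin m → α, H (fun j => x (e j)) =
      Fintype.card ({ i : Fin m // i ∉ Set.range e } → α) • ∑ y : Fin n → α, H y := by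
  classical
  have h1 : ∑ x : Fin m → α, H (fun j => x (e j)) =
      ∑ z : ({ i : Fin m // i ∈ Set.range e } → α) × ({ i : Fin m // i ∉ Set.range e } → α),
        H (fun j => z.1 ⟨e j, j, rfl⟩) :=
    Fintype.sum_equiv (Equiv.piEquivPiSubtypeProd (fun i => i ∈ Set.range e) (fun _ => α)) _ _
      fun x => rfl
  rw [h1, Fintype.sum_prod_type]
  have h2 : ∀ y : { i : Fin m // i ∈ Set.range e } → α,
      ∑ _z : { i : Fin m // i ∉ Set.range e } → α, H (fun j => y ⟨e j, j, rfl⟩) =
        Fintype.card ({ i : Fin m // i ∉ Set.range e } → α) • H (fun j => y ⟨e j, j, rfl⟩) := by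
    intro y
    rw [sum_const, card_univ]
  rw [sum_congr rfl fun y _ => h2 y, ← smul_sum]
  congr 1
  exact Fintype.sum_equiv (Equiv.arrowCongr (Equiv.ofInjective e he).symm (Equiv.refl α)) _ _
    fun y => rfl

/-- averages of a function of some coordinates -/
theorem avg_coords {α E : Type*} [Fintype α] [DecidableEq α] [AddCommMonoid E] {n m : ℕ}
    (e : Fin n → Fin m) (he : Function.Injective e) :
    ∃ C : ℕ, C * Fintype.card α ^ n = Fintype.card α ^ m ∧
      ∀ H : (Fin n → α) → E, ∑ x : Fin m → α, H (fun j => x (e j)) =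
        C • ∑ y : Fin n → α, H y := by
  classical
  refine ⟨Fintype.card ({ i : Fin m // i ∉ Set.range e } → α), ?_, fun H => avg_aux e he H⟩
  have h := avg_aux (E := ℕ) e he (fun _ : Fin n → α => 1)
  simp only [sum_const, card_univ, smul_eq_mul, mul_one] at h
  rw [Fintype.card_fun (α := Fin n), Fintype.card_fun (α := Fin m), Fintype.card_fin,
    Fintype.card_fin] at h
  exact h.symm

/-- `A` is in general position with respect to the polynomials `Ps`: none of them vanishes at a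
tuple of DIFFERENT elements of `A` -/
def GenPos {R : Type} [CommRing R] {n : ℕ} (Ps : Finset (MvPolynomial (Fin n) R))
    (A : Finset R) : Prop :=
  ∀ P ∈ Ps, ∀ y : Fin n → R, Function.Injective y → (∀ i, y i ∈ A) → MvPolynomial.eval y P ≠ 0

theorem GenPos.mono {R : Type} [CommRing R] {n : ℕ} {Ps : Finset (MvPolynomial (Fin n) R)}
    {A B : Finset R} (h : GenPos Ps B) (hAB : A ⊆ B) : GenPos Ps A :=
  fun P hP y hy hA => h P hP y hy fun i => hAB (hA i)

variable {F : Type} [Field F] [DecidableEq F]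

/-- the number of zeros of a polynomial in a grid -/
theorem zeros {n D : ℕ} {P : MvPolynomial (Fin n) F} (hP : P ≠ 0) (hD : P.totalDegree ≤ D)
    (A : Finset F) (hA : A.Nonempty) :
    (∑ y : Fin n → A, if MvPolynomial.eval (fun i => (y i : F)) P = 0 then (1 : ℝ) else 0) *
      A.card ≤ D * (A.card : ℝ) ^ n := by
  classical
  have h := MvPolynomial.schwartz_zippel_totalDegree hP A
  have hc : (0 : ℝ) < A.card := by exact_mod_cast card_pos.2 hA
  have h1 : (∑ y : Fin n → A, if MvPolynomial.eval (fun i => (y i : F)) P = 0 then (1 : ℝ) else 0) =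
      (((Fintype.piFinset fun _ : Fin n => A).filter
        fun f => MvPolynomial.eval f P = 0).card : ℝ) := by
    rw [← sum_boole]
    refine sum_bij' (fun y _ => fun i => (y i : F))
      (fun f hf => fun i => ⟨f i, Fintype.mem_piFinset.1 hf i⟩) ?_ ?_ ?_ ?_ ?_
    · intro y _
      exact Fintype.mem_piFinset.2 fun i => (y i).2
    · intro f _
      exact mem_univ _
    · intro y _
      rfl
    · intro f _
      rfl
    · intro y _
      rfl
  rw [h1]
  have h2 : ((((Fintype.piFinset fun _ : Fin n => A).filter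
      fun f => MvPolynomial.eval f P = 0).card : ℚ≥0) : ℝ) / ((A.card : ℝ) ^ n) ≤
      (P.totalDegree : ℝ) / A.card := by
    have h3 := (NNRat.cast_le (K := ℝ)).2 h
    push_cast at h3
    simpa using h3
  have h4 : ((((Fintype.piFinset fun _ : Fin n => A).filter
      fun f => MvPolynomial.eval f P = 0).card : ℚ≥0) : ℝ) =
      (((Fintype.piFinset fun _ : Fin n => A).filter
      fun f => MvPolynomial.eval f P = 0).card : ℝ) := by simp
  rw [h4, div_le_div_iff₀ (by positivity) hc] at h2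
  refine h2.trans (mul_le_mul_of_nonneg_right ?_ (by positivity))
  exact_mod_cast hD

/-- **Sampling in general position.** -/
theorem sample (k : F → F → ℂ) (hk : ∀ x y, ‖k x y‖ ≤ 1) (A : Finset F) (n m D : ℕ)
    (Ps : Finset (MvPolynomial (Fin (n + 1)) F)) (hPs : ∀ P ∈ Ps, P ≠ 0 ∧ P.totalDegree ≤ D)
    (hA : A.Nonempty)
    (hbig : 4 * (m : ℝ) * ((Ps.card : ℝ) * D * (m : ℝ) ^ (n + 1) + (m : ℝ) ^ 2) / A.card <
      (m : ℝ) * (m - 1) * (‖∑ a ∈ A, ∑ b ∈ A, k a b‖ / (A.card : ℝ) ^ 2)) :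
    ∃ A' ⊆ A, 3 * m ≤ 4 * A'.card ∧ A'.card ≤ m ∧ GenPos Ps A' ∧
      (m : ℝ) * (m - 1) * (‖∑ a ∈ A, ∑ b ∈ A, k a b‖ / (A.card : ℝ) ^ 2) ≤
        ‖∑ a ∈ A', ∑ b ∈ A', k a b‖ + m +
          4 * (m : ℝ) * ((Ps.card : ℝ) * D * (m : ℝ) ^ (n + 1) + (m : ℝ) ^ 2) / A.card := by
  classical
  set M : ℝ := (A.card : ℝ) with hM
  have hM0 : 0 < M := by rw [hM]; exact_mod_cast card_pos.2 hA
  set S : ℂ := ∑ a ∈ A, ∑ b ∈ A, k a b with hS
  -- a unimodular number
  obtain ⟨w, hw1, hw2⟩ : ∃ w : ℂ, ‖w‖ = 1 ∧ w * S = (‖S‖ : ℂ) := by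
    by_cases hz : S = 0
    · exact ⟨1, by simp, by rw [hz]; simp⟩
    · refine ⟨(starRingEnd ℂ) S / ‖S‖, ?_, ?_⟩
      · rw [norm_div, RCLike.norm_conj, Complex.norm_real, norm_norm]
        exact div_self (norm_ne_zero_iff.2 hz)
      · have h : ((‖S‖ : ℝ) : ℂ) ≠ 0 := by exact_mod_cast norm_ne_zero_iff.2 hz
        rw [div_mul_eq_mul_div, Complex.conj_mul', sq]
        field_simp
  set r : F → F → ℝ := fun a b => (w * k a b).re with hr
  have hrabs : ∀ a b, |r a b| ≤ 1 := by
    intro a b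
    refine (Complex.abs_re_le_norm _).trans ?_
    rw [norm_mul, hw1, one_mul]
    exact hk a b
  have hr1 : ∀ a b, r a b ≤ 1 := fun a b => (abs_le.1 (hrabs a b)).2
  have hrS : ∀ B : Finset F, (w * ∑ a ∈ B, ∑ b ∈ B, k a b).re = ∑ a ∈ B, ∑ b ∈ B, r a b := by
    intro B
    rw [mul_sum, Complex.re_sum]
    refine sum_congr rfl fun a _ => ?_
    rw [mul_sum, Complex.re_sum]
  -- the sample space
  let Ω := Fin m → A
  set T : ℝ := (Fintype.card Ω : ℝ) with hT
  have hAc : (Fintype.card A : ℝ) = M := by rw [Fintype.card_coe]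
  have hTM : T = M ^ m := by
    rw [hT, Fintype.card_fun, Fintype.card_fin]
    push_cast
    rw [hAc]
  have hT0 : 0 < T := by rw [hTM]; positivity
  -- averages over pairs
  have hpair : ∀ (H : F → F → ℝ) (i j : Fin m), i ≠ j →
      M ^ 2 * ∑ x : Ω, H (x i) (x j) = T * ∑ a ∈ A, ∑ b ∈ A, H a b := by
    intro H i j hij
    obtain ⟨C, hC1, hC2⟩ := avg_coords (α := A) (E := ℝ) (n := 2) (m := m) ![i, j] (by
      intro a b hab
      fin_cases a <;> fin_cases b
      · rfl
      · exact absurd hab hij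
      · exact absurd hab.symm hij
      · rfl)
    have h1 := hC2 (fun y => H (y 0) (y 1))
    simp only [Matrix.cons_val_zero, Matrix.cons_val_one] at h1
    have h2 : ∑ y : Fin 2 → A, H (y 0) (y 1) = ∑ a ∈ A, ∑ b ∈ A, H a b := by
      rw [Fintype.sum_equiv (finTwoArrowEquiv A) (fun y : Fin 2 → A => H (y 0) (y 1))
        (fun z => H z.1 z.2) (fun y => rfl), Fintype.sum_prod_type]
      rw [← sum_coe_sort A (fun a => ∑ b ∈ A, H a b)]
      refine sum_congr rfl fun a _ => ?_
      rw [← sum_coe_sort A (fun b => H a b)]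
    have hC1' : (C : ℝ) * M ^ 2 = T := by
      rw [hTM, ← hAc]; exact_mod_cast hC1
    change ∑ x : Ω, H (x i) (x j) = _ at h1
    rw [h1, h2, nsmul_eq_mul, ← hC1']
    ring
  -- the main term
  have hmain : M ^ 2 * ∑ x : Ω, ∑ i : Fin m, ∑ j ∈ univ.erase i, r (x i) (x j) =
      T * ((m : ℝ) * (m - 1) * ‖S‖) := by
    have h1 : ∑ x : Ω, ∑ i : Fin m, ∑ j ∈ univ.erase i, r (x i) (x j) =
        ∑ i : Fin m, ∑ j ∈ univ.erase i, ∑ x : Ω, r (x i) (x j) := by
      rw [sum_comm]
      refine sum_congr rfl fun i _ => ?_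
      rw [sum_comm]
    have h2 : ∑ a ∈ A, ∑ b ∈ A, r a b = ‖S‖ := by
      rw [← hrS, hw2, Complex.ofReal_re]
    rw [h1, mul_sum]
    have h3 : ∀ i : Fin m, M ^ 2 * ∑ j ∈ univ.erase i, ∑ x : Ω, r (x i) (x j) =
        ((m : ℝ) - 1) * (T * ‖S‖) := by
      intro i
      rw [mul_sum, sum_congr rfl fun j hj => hpair r i j (ne_of_mem_erase hj).symm, h2, sum_const,
        card_erase_of_mem (mem_univ _), card_univ, Fintype.card_fin, nsmul_eq_mul,
        Nat.cast_sub (show 1 ≤ m by have := i.2; omega)]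
      simp
    rw [sum_congr rfl fun i _ => h3 i, sum_const, card_univ, Fintype.card_fin, nsmul_eq_mul]
    ring
  -- the bad events
  set B₁ : Ω → ℝ := fun x =>
    ∑ P ∈ Ps, ∑ e ∈ (univ : Finset (Fin (n + 1) → Fin m)).filter Function.Injective,
      if MvPolynomial.eval (fun i => (x (e i) : F)) P = 0 then (1 : ℝ) else 0 with hB₁
  set B₂ : Ω → ℝ := fun x =>
    ∑ i : Fin m, ∑ j ∈ univ.erase i, if (x i : F) = x j then (1 : ℝ) else 0 with hB₂
  have hb1 : M * ∑ x : Ω, B₁ x ≤ T * ((Ps.card : ℝ) * D * (m : ℝ) ^ (n + 1)) := by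
    have h1 : ∑ x : Ω, B₁ x =
        ∑ P ∈ Ps, ∑ e ∈ (univ : Finset (Fin (n + 1) → Fin m)).filter Function.Injective,
        ∑ x : Ω, (if MvPolynomial.eval (fun i => (x (e i) : F)) P = 0 then (1 : ℝ) else 0) := by
      rw [hB₁, sum_comm]
      refine sum_congr rfl fun P _ => ?_
      rw [sum_comm]
    have h2 : ∀ P ∈ Ps, ∀ e ∈ (univ : Finset (Fin (n + 1) → Fin m)).filter Function.Injective,
        M * ∑ x : Ω, (if MvPolynomial.eval (fun i => (x (e i) : F)) P = 0 then (1 : ℝ) else 0) ≤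
          T * D := by
      intro P hP e he
      obtain ⟨C, hC1, hC2⟩ := avg_coords (α := A) (E := ℝ) e (mem_filter.1 he).2
      have h3 := hC2 (fun y => if MvPolynomial.eval (fun i => (y i : F)) P = 0 then (1 : ℝ) else 0)
      have h4 := zeros (hPs P hP).1 (hPs P hP).2 A hA
      have hC1' : (C : ℝ) * M ^ (n + 1) = T := by
        rw [hTM, ← hAc]; exact_mod_cast hC1
      change ∑ x : Ω, _ = _ at h3
      rw [h3, nsmul_eq_mul, ← hC1']
      have h5 := mul_le_mul_of_nonneg_left h4 (Nat.cast_nonneg C (α := ℝ))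
      calc _ = (C : ℝ) * ((∑ y : Fin (n + 1) → A,
            if MvPolynomial.eval (fun i => (y i : F)) P = 0 then (1 : ℝ) else 0) * A.card) := by
              rw [hM]; ring
        _ ≤ _ := h5
        _ = _ := by rw [hM]; ring
    rw [h1, mul_sum]
    calc ∑ P ∈ Ps, M * ∑ e ∈ (univ : Finset (Fin (n + 1) → Fin m)).filter Function.Injective,
          ∑ x : Ω, (if MvPolynomial.eval (fun i => (x (e i) : F)) P = 0 then (1 : ℝ) else 0)
        ≤ ∑ P ∈ Ps, ((m : ℝ) ^ (n + 1) * (T * D)) := by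
          refine sum_le_sum fun P hP => ?_
          rw [mul_sum]
          refine (sum_le_sum fun e he => h2 P hP e he).trans ?_
          rw [sum_const, nsmul_eq_mul]
          refine mul_le_mul_of_nonneg_right ?_ (by positivity)
          have h6 : ((univ : Finset (Fin (n + 1) → Fin m)).filter Function.Injective).card ≤
              m ^ (n + 1) := by
            refine (card_filter_le _ _).trans (le_of_eq ?_)
            rw [card_univ, Fintype.card_fun, Fintype.card_fin, Fintype.card_fin]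
          exact_mod_cast h6
      _ = _ := by rw [sum_const, nsmul_eq_mul]; ring
  have hb2 : M * ∑ x : Ω, B₂ x ≤ T * (m : ℝ) ^ 2 := by
    have h1 : ∑ x : Ω, B₂ x =
        ∑ i : Fin m, ∑ j ∈ univ.erase i, ∑ x : Ω, (if (x i : F) = x j then (1 : ℝ) else 0) := by
      rw [hB₂, sum_comm]
      refine sum_congr rfl fun i _ => ?_
      rw [sum_comm]
    have h2 : ∀ i : Fin m, ∀ j ∈ univ.erase i,
        M * ∑ x : Ω, (if (x i : F) = x j then (1 : ℝ) else 0) = T := by
      intro i j hj
      have h3 := hpair (fun a b => if a = b then (1 : ℝ) else 0) i j (ne_of_mem_erase hj).symm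
      have h4 : ∑ a ∈ A, ∑ b ∈ A, (if a = b then (1 : ℝ) else 0) = M := by
        rw [sum_congr rfl fun a ha => by rw [sum_ite_eq A a, if_pos ha], sum_const, nsmul_eq_mul,
          mul_one]
      rw [h4] at h3
      have h5 : M * (M * ∑ x : Ω, (if (x i : F) = x j then (1 : ℝ) else 0)) = M * T := by
        linarith
      exact mul_left_cancel₀ hM0.ne' h5
    rw [h1, mul_sum]
    calc ∑ i : Fin m, M * ∑ j ∈ univ.erase i, ∑ x : Ω, (if (x i : F) = x j then (1 : ℝ) else 0)
        ≤ ∑ _i : Fin m, ((m : ℝ) * T) := by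
          refine sum_le_sum fun i _ => ?_
          rw [mul_sum, sum_congr rfl fun j hj => h2 i j hj, sum_const, nsmul_eq_mul]
          refine mul_le_mul_of_nonneg_right ?_ hT0.le
          have : (univ.erase i).card ≤ m := by
            rw [card_erase_of_mem (mem_univ _), card_univ, Fintype.card_fin]
            exact Nat.sub_le _ _
          exact_mod_cast this
      _ = _ := by rw [sum_const, card_univ, Fintype.card_fin, nsmul_eq_mul]; ring
  -- choose a good sample
  set E : ℝ := 4 * (m : ℝ) * ((Ps.card : ℝ) * D * (m : ℝ) ^ (n + 1) + (m : ℝ) ^ 2) / M with hE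
  set G : ℝ := (m : ℝ) * (m - 1) * (‖S‖ / M ^ 2) with hG
  have havg : T * (G - E) ≤
      ∑ x : Ω, ((∑ i : Fin m, ∑ j ∈ univ.erase i, r (x i) (x j)) -
        4 * (m : ℝ) * (B₁ x + B₂ x)) := by
    rw [sum_sub_distrib, ← mul_sum]
    have h1 : ∑ x : Ω, ∑ i : Fin m, ∑ j ∈ univ.erase i, r (x i) (x j) = T * G := by
      have h2 : M ^ 2 * ∑ x : Ω, ∑ i : Fin m, ∑ j ∈ univ.erase i, r (x i) (x j) =
          M ^ 2 * (T * G) := by
        rw [hmain, hG]; field_simp
      exact mul_left_cancel₀ (by positivity) h2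
    have h3 : 4 * (m : ℝ) * ∑ x : Ω, (B₁ x + B₂ x) ≤ T * E := by
      have h4 : M * ∑ x : Ω, (B₁ x + B₂ x) ≤
          T * ((Ps.card : ℝ) * D * (m : ℝ) ^ (n + 1) + (m : ℝ) ^ 2) := by
        rw [sum_add_distrib]
        linarith
      have h5 : ∑ x : Ω, (B₁ x + B₂ x) ≤
          T * ((Ps.card : ℝ) * D * (m : ℝ) ^ (n + 1) + (m : ℝ) ^ 2) / M := by
        rw [le_div_iff₀ hM0]; linarith
      calc _ ≤ 4 * (m : ℝ) * (T * ((Ps.card : ℝ) * D * (m : ℝ) ^ (n + 1) + (m : ℝ) ^ 2) / M) :=
            mul_le_mul_of_nonneg_left h5 (by positivity)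
        _ = _ := by rw [hE]; ring
    rw [h1]
    linarith
  obtain ⟨x, hx⟩ : ∃ x : Ω, G - E ≤
      (∑ i : Fin m, ∑ j ∈ univ.erase i, r (x i) (x j)) - 4 * (m : ℝ) * (B₁ x + B₂ x) := by
    by_contra hcon
    push Not at hcon
    have : Nonempty A := ⟨⟨hA.choose, hA.choose_spec⟩⟩
    have h7 := sum_lt_sum_of_nonempty (s := (univ : Finset Ω)) univ_nonempty fun x _ => hcon x
    rw [sum_const, card_univ, nsmul_eq_mul] at h7
    exact absurd havg (not_le.2 h7)
  have hR1 : ∑ i : Fin m, ∑ j ∈ univ.erase i, r (x i) (x j) ≤ (m : ℝ) ^ 2 := by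
    calc _ ≤ ∑ i : Fin m, ∑ _j : Fin m, (1 : ℝ) := by
          refine sum_le_sum fun i _ => ?_
          refine (sum_le_sum fun j _ => hr1 (x i) (x j)).trans ?_
          exact sum_le_sum_of_subset_of_nonneg (erase_subset _ _) fun _ _ _ => zero_le_one
      _ = (m : ℝ) ^ 2 := by
          simp [sq]
  have hpos : 0 < G - E := by
    have : E < G := hbig
    linarith
  have hmpos : (0 : ℝ) < m := by
    rcases Nat.eq_zero_or_pos m with h | h
    · exfalso
      have h0 : (m : ℝ) = 0 := by rw [h]; simp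
      have hG0 : G = 0 := by rw [hG, h0]; ring
      have hE0 : E = 0 := by rw [hE, h0]; ring
      rw [hG0, hE0] at hpos
      simp at hpos
    · exact_mod_cast h
  -- the indices to be removed
  let R₁ : Finset (Fin m) := ((Ps ×ˢ
    (univ : Finset (Fin (n + 1) → Fin m)).filter Function.Injective).filter
      fun q => MvPolynomial.eval (fun i => (x (q.2 i) : F)) q.1 = 0).image fun q => q.2 0
  let R₂ : Finset (Fin m) := univ.filter fun i => ∃ j, j ≠ i ∧ (x i : F) = x j
  let R := R₁ ∪ R₂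
  have hR1c : (R₁.card : ℝ) ≤ B₁ x := by
    have h1 : (R₁.card : ℝ) ≤ (((Ps ×ˢ
        (univ : Finset (Fin (n + 1) → Fin m)).filter Function.Injective).filter
        fun q => MvPolynomial.eval (fun i => (x (q.2 i) : F)) q.1 = 0).card : ℝ) := by
      exact_mod_cast card_image_le
    refine h1.trans (le_of_eq ?_)
    rw [← sum_boole, sum_product]
  have hR2c : (R₂.card : ℝ) ≤ B₂ x := by
    rw [← sum_boole]
    refine sum_le_sum fun i _ => ?_
    have hnn : ∀ j ∈ univ.erase i, (0 : ℝ) ≤ if (x i : F) = x j then (1 : ℝ) else 0 :=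
      fun j _ => by split_ifs <;> norm_num
    split_ifs with h
    · obtain ⟨j, hj, hij⟩ := h
      calc (1 : ℝ) = if (x i : F) = x j then (1 : ℝ) else 0 := by rw [if_pos hij]
        _ ≤ _ := single_le_sum (f := fun j => if (x i : F) = x j then (1 : ℝ) else 0) hnn
              (mem_erase.2 ⟨hj, mem_univ _⟩)
    · exact sum_nonneg hnn
  have hRc : (R.card : ℝ) ≤ B₁ x + B₂ x := by
    have h1 : (R.card : ℝ) ≤ R₁.card + R₂.card := by exact_mod_cast card_union_le R₁ R₂
    linarith
  have hBm : 4 * (B₁ x + B₂ x) ≤ m := by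
    have h1 : (m : ℝ) * (4 * (B₁ x + B₂ x)) ≤ m * m := by nlinarith
    exact le_of_mul_le_mul_left h1 hmpos
  let I : Finset (Fin m) := univ \ R
  have hIc : (I.card : ℝ) + R.card = m := by
    have h1 : I.card + R.card = m := by
      rw [card_sdiff_add_card_eq_card (subset_univ R), card_univ, Fintype.card_fin]
    exact_mod_cast h1
  have hinj : Set.InjOn (fun i => (x i : F)) (I : Set (Fin m)) := by
    intro i hi j hj hij
    by_contra hne
    have h1 : i ∈ R := mem_union_right _ (mem_filter.2 ⟨mem_univ _, j, fun h => hne h.symm, hij⟩)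
    exact (mem_sdiff.1 (mem_coe.1 hi)).2 h1
  set A' : Finset F := I.image fun i => (x i : F) with hA'
  have hA'c : A'.card = I.card := card_image_of_injOn hinj
  refine ⟨A', ?_, ?_, ?_, ?_, ?_⟩
  · intro a ha
    rw [hA'] at ha
    obtain ⟨i, -, rfl⟩ := mem_image.1 ha
    exact (x i).2
  · have h1 : 3 * (m : ℝ) ≤ 4 * (A'.card : ℝ) := by
      rw [hA'c]; linarith
    exact_mod_cast h1
  · have h1 : (A'.card : ℝ) ≤ m := by
      rw [hA'c]
      have : (0 : ℝ) ≤ R.card := Nat.cast_nonneg _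
      linarith
    exact_mod_cast h1
  · intro P hP y hy hyA hzero
    have hch : ∀ i, ∃ j : Fin m, j ∈ I ∧ (x j : F) = y i := by
      intro i
      have := hyA i
      rw [hA'] at this
      obtain ⟨j, hj1, hj⟩ := mem_image.1 this
      exact ⟨j, hj1, hj⟩
    choose e he1 he using hch
    have heinj : Function.Injective e := by
      intro i j hij
      apply hy
      rw [← he i, ← he j, hij]
    have hev : MvPolynomial.eval (fun i => (x (e i) : F)) P = 0 := by
      have : (fun i => (x (e i) : F)) = y := funext he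
      rw [this]
      exact hzero
    have h1 : e 0 ∈ R := by
      refine mem_union_left _ (mem_image.2 ⟨(P, e), mem_filter.2 ⟨mem_product.2 ⟨hP,
        mem_filter.2 ⟨mem_univ _, heinj⟩⟩, hev⟩, rfl⟩)
    exact (mem_sdiff.1 (he1 0)).2 h1
  · let ρ : Fin m → Fin m → ℝ := fun i j => if i = j then 0 else r (x i) (x j)
    have hρ : ∀ i j, ρ i j ≤ 1 := by
      intro i j
      by_cases h : i = j
      · simp [ρ, h]
      · simp only [ρ, h, if_false]
        exact hr1 _ _
    have h1 : (w * ∑ a ∈ A', ∑ b ∈ A', k a b).re = ∑ i ∈ I, ∑ j ∈ I, r (x i) (x j) := by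
      rw [hrS, hA', sum_image hinj]
      refine sum_congr rfl fun i _ => ?_
      rw [sum_image hinj]
    have h2 : ∑ i ∈ I, ∑ j ∈ I, r (x i) (x j) = ∑ i ∈ I, r (x i) (x i) +
        ∑ i ∈ I, ∑ j ∈ I, ρ i j := by
      rw [← sum_add_distrib]
      refine sum_congr rfl fun i hi => ?_
      rw [← add_sum_erase I _ hi, ← add_sum_erase I (fun j => ρ i j) hi]
      have h3 : ρ i i = 0 := by simp [ρ]
      have h4 : ∑ j ∈ I.erase i, ρ i j = ∑ j ∈ I.erase i, r (x i) (x j) := by
        refine sum_congr rfl fun j hj => ?_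
        simp only [ρ]
        rw [if_neg (ne_of_mem_erase hj).symm]
      rw [h3, h4]
      ring
    have h5 : ∑ i : Fin m, ∑ j ∈ univ.erase i, r (x i) (x j) = ∑ i : Fin m, ∑ j : Fin m, ρ i j := by
      refine sum_congr rfl fun i _ => ?_
      rw [← add_sum_erase univ (fun j => ρ i j) (mem_univ i)]
      have h3 : ρ i i = 0 := by simp [ρ]
      rw [h3, zero_add]
      refine sum_congr rfl fun j hj => ?_
      simp only [ρ]
      rw [if_neg (ne_of_mem_erase hj).symm]
    have h6 : ∑ i : Fin m, ∑ j : Fin m, ρ i j = ∑ i ∈ I, ∑ j ∈ I, ρ i j +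
        ∑ i ∈ I, ∑ j ∈ R, ρ i j + ∑ i ∈ R, ∑ j : Fin m, ρ i j := by
      rw [← sum_sdiff (subset_univ R), ← sum_add_distrib]
      congr 1
      refine sum_congr rfl fun i _ => ?_
      rw [← sum_sdiff (subset_univ R)]
    have h7 : ∑ i ∈ I, ∑ j ∈ R, ρ i j ≤ m * R.card := by
      calc _ ≤ ∑ i ∈ I, ∑ _j ∈ R, (1 : ℝ) :=
            sum_le_sum fun i _ => sum_le_sum fun j _ => hρ i j
        _ = (I.card : ℝ) * R.card := by simp
        _ ≤ _ := by
            refine mul_le_mul_of_nonneg_right ?_ (Nat.cast_nonneg _)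
            have : (0 : ℝ) ≤ R.card := Nat.cast_nonneg _
            linarith
    have h8 : ∑ i ∈ R, ∑ j : Fin m, ρ i j ≤ m * R.card := by
      calc _ ≤ ∑ i ∈ R, ∑ _j : Fin m, (1 : ℝ) :=
            sum_le_sum fun i _ => sum_le_sum fun j _ => hρ i j
        _ = (m : ℝ) * R.card := by simp; ring
    have h9 : -(m : ℝ) ≤ ∑ i ∈ I, r (x i) (x i) := by
      calc -(m : ℝ) ≤ -(I.card : ℝ) := by
            have : (0 : ℝ) ≤ R.card := Nat.cast_nonneg _
            linarith
        _ = ∑ _i ∈ I, (-1 : ℝ) := by simp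
        _ ≤ _ := sum_le_sum fun i _ => (abs_le.1 (hrabs _ _)).1
    have h10 : (w * ∑ a ∈ A', ∑ b ∈ A', k a b).re ≤ ‖∑ a ∈ A', ∑ b ∈ A', k a b‖ := by
      refine (Complex.re_le_norm _).trans ?_
      rw [norm_mul, hw1, one_mul]
    have h11 : (m : ℝ) * R.card ≤ m * (B₁ x + B₂ x) := mul_le_mul_of_nonneg_left hRc hmpos.le
    have h12 : 0 ≤ (m : ℝ) * R.card := by positivity
    rw [h1, h2] at h10
    linarith

end Pool.Agent.N793.GP
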